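import Pool.Agent.R709.GP.Main

/-!
MP_f79b2b_co: the lower general position number of Cartesian products.

General position sets, maximal general position sets and the lower general position number
`lowerGP` are defined in `Pool.Agent.R709.GP.Defs`; `G □ H` is the Cartesian product of Mathlib and
`⊤ : SimpleGraph (Fin r)` is the complete graph `K_r`.
-/

set_option autoImplicit false

open Pool.Agent.R709.GP

namespace Pool.Agent.Results.MP_f79b2b_co.ProductGap

/-- The inequality `gp⁻(G □ H) ≥ min {gp⁻(G), gp⁻(H)}` fails, and there is no lower bound for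
`gp⁻(G □ H)` in terms of `min {gp⁻(G), gp⁻(H)}` exceeding `5`: for every `N` there is a finite
connected graph `H` with `gp⁻(H) ≥ N` such that for all `r ≥ 2` one has `gp⁻(K_r) = r` and
`gp⁻(K_r □ H) ≤ 5`. -/
theorem result : ∀ N : ℕ, ∃ (W : Type) (_ : Fintype W) (H : SimpleGraph W), H.Connected ∧
    N ≤ lowerGP H ∧ ∀ r : ℕ, 2 ≤ r → lowerGP (⊤ : SimpleGraph (Fin r)) = r ∧
      lowerGP ((⊤ : SimpleGraph (Fin r)) □ H) ≤ 5 :=
  main

end Pool.Agent.Results.MP_f79b2b_co.ProductGap
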